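import Pool.Agent.P8H27.EQ.Var
import Pool.Agent.P8H27.EQ.Orb

/-!
# The variance of the means over the translates of a group, with arbitrary weights
-/

set_option autoImplicit false

namespace Pool.Agent.P8H27.DC

open Pool.Agent.P8H27.EQ (mean mean_eq_sum mean_congr orb pmean abs_prod_sub)

theorem varg {r : ℕ} {A : Fin r → Type} [∀ j, CommGroup (A j)] [∀ j, Fintype (A j)] {H : Type} [Group H]
    [Fintype H] (φ : H →* ∀ j, A j) (u : H → ℝ) (hu : ∀ h, |u h| ≤ 1) (F : ∀ j, A j → ℝ)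
    (hF : ∀ j a, |F j a| ≤ 1) :
    (∑ c : ∀ j, A j, ((∑ h : H, u h * ∏ j, F j (φ h j * c j)) / (Fintype.card H : ℝ) -
      (∑ h : H, u h) / (Fintype.card H : ℝ) *
        ∏ j, (∑ a, F j a) / (Fintype.card (A j) : ℝ)) ^ 2) /
      (Fintype.card (∀ j, A j) : ℝ) ≤
    ∑ j, (∑ h : H, |(∑ a, F j (φ h j * a) * F j a) / (Fintype.card (A j) : ℝ) -
      ((∑ a, F j a) / (Fintype.card (A j) : ℝ)) ^ 2|) / (Fintype.card H : ℝ) := by
  classical
  obtain ⟨T, hT⟩ : ∃ T : Finset (Fin r), T = Finset.univ := ⟨_, rfl⟩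
  rw [← hT]
  obtain ⟨N, hN⟩ : ∃ N : ℝ, N = (Fintype.card (∀ j, A j) : ℝ) := ⟨_, rfl⟩
  obtain ⟨M, hM⟩ : ∃ M : ℝ, M = (Fintype.card H : ℝ) := ⟨_, rfl⟩
  have hM0 : 0 < M := by rw [hM]; exact_mod_cast Fintype.card_pos
  have hN0 : 0 < N := by rw [hN]; exact_mod_cast Fintype.card_pos
  rw [← hM, ← hN]
  let v : H → (∀ j, A j) → ℝ := fun h c => ∏ j ∈ T, F j (φ h j * c j)
  let μ : ∀ j, ℝ := fun j => (∑ a, F j a) / (Fintype.card (A j) : ℝ)
  let m : ℝ := ∏ j ∈ T, μ j
  let R : ∀ j, A j → ℝ := fun j a => (∑ b, F j (a * b) * F j b) / (Fintype.card (A j) : ℝ)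
  have hcj : ∀ j, (0 : ℝ) < Fintype.card (A j) := fun j => by exact_mod_cast Fintype.card_pos
  have hμ : ∀ j, |μ j| ≤ 1 := by
    intro j
    show |(∑ a, F j a) / (Fintype.card (A j) : ℝ)| ≤ 1
    rw [abs_div, abs_of_pos (hcj j), div_le_one (hcj j)]
    refine (Finset.abs_sum_le_sum_abs _ _).trans ?_
    refine (Finset.sum_le_sum (fun a _ => hF j a)).trans ?_
    simp
  have hR : ∀ j a, |R j a| ≤ 1 := by
    intro j a
    show |(∑ b, F j (a * b) * F j b) / (Fintype.card (A j) : ℝ)| ≤ 1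
    rw [abs_div, abs_of_pos (hcj j), div_le_one (hcj j)]
    refine (Finset.abs_sum_le_sum_abs _ _).trans ?_
    refine (Finset.sum_le_sum (g := fun _ => (1 : ℝ)) (fun b _ => ?_)).trans ?_
    · rw [abs_mul]
      exact mul_le_one₀ (hF j _) (abs_nonneg _) (hF j _)
    · simp
  -- means of the `v`
  have hv1 : ∀ h, (∑ c, v h c) / N = m := by
    intro h
    rw [hN]
    have h1 := pmean T (fun j a => F j (φ h j * a))
    have h2 : (∑ c : ∀ j, A j, v h c) = ∑ c : ∀ j, A j, ∏ j ∈ T, F j (φ h j * c j) := rfl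
    rw [h2, h1]
    apply Finset.prod_congr rfl
    intro j _
    show _ = (∑ a, F j a) / (Fintype.card (A j) : ℝ)
    rw [← Equiv.sum_comp (Equiv.mulLeft (φ h j)) (F j)]
    rfl
  have hv2 : ∀ h h' : H, (∑ c, v h c * v h' c) / N =
      ∏ j ∈ T, R j (φ h j * (φ h' j)⁻¹) := by
    intro h h'
    rw [hN]
    have h1 := pmean T (fun j a => F j (φ h j * a) * F j (φ h' j * a))
    have h2 : (∑ c : ∀ j, A j, v h c * v h' c) =
        ∑ c : ∀ j, A j, ∏ j ∈ T, (F j (φ h j * c j) * F j (φ h' j * c j)) := by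
      apply Finset.sum_congr rfl
      intro c _
      rw [Finset.prod_mul_distrib]
    rw [h2, h1]
    apply Finset.prod_congr rfl
    intro j _
    show _ = (∑ b, F j (φ h j * (φ h' j)⁻¹ * b) * F j b) / (Fintype.card (A j) : ℝ)
    rw [← Equiv.sum_comp (Equiv.mulLeft (φ h' j))
      (fun b => F j (φ h j * (φ h' j)⁻¹ * b) * F j b)]
    congr 1
    apply Finset.sum_congr rfl
    intro b _
    simp only [Equiv.coe_mulLeft]
    rw [mul_assoc, inv_mul_cancel_left]
  have hcov : ∀ h h' : H, (∑ c, (v h c - m) * (v h' c - m)) / N =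
      ∏ j ∈ T, R j (φ h j * (φ h' j)⁻¹) - ∏ j ∈ T, μ j ^ 2 := by
    intro h h'
    have h1 : ∑ c, (v h c - m) * (v h' c - m) =
        ∑ c, v h c * v h' c - m * ∑ c, v h c - m * ∑ c, v h' c + N * m ^ 2 := by
      have h2 : ∀ c, (v h c - m) * (v h' c - m) = v h c * v h' c - m * v h c - m * v h' c + m ^ 2 := by
        intro c; ring
      simp only [h2]
      rw [Finset.sum_add_distrib, Finset.sum_sub_distrib, Finset.sum_sub_distrib, ← Finset.mul_sum,
        ← Finset.mul_sum, Finset.sum_const, Finset.card_univ, nsmul_eq_mul, hN]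
    rw [h1]
    have h3 : (∑ c, v h c * v h' c - m * ∑ c, v h c - m * ∑ c, v h' c + N * m ^ 2) / N =
        (∑ c, v h c * v h' c) / N - m * ((∑ c, v h c) / N) - m * ((∑ c, v h' c) / N) + m ^ 2 := by
      field_simp
    rw [h3, hv1, hv1, hv2]
    have h4 : ∏ j ∈ T, μ j ^ 2 = m ^ 2 := by rw [Finset.prod_pow]
    rw [h4]
    ring
  have hL : ∀ c : ∀ j, A j, ((∑ h : H, u h *
        ∏ j ∈ T, F j (φ h j * c j)) / M -
      (∑ h : H, u h) / M *
        ∏ j ∈ T, (∑ a, F j a) / (Fintype.card (A j) : ℝ)) ^ 2 =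
      (∑ h : H, ∑ h' : H, u h * u h' * ((v h c - m) * (v h' c - m))) / M ^ 2 := by
    intro c
    have h1 : (∑ h : H, u h *
        ∏ j ∈ T, F j (φ h j * c j)) / M -
      (∑ h : H, u h) / M *
        ∏ j ∈ T, (∑ a, F j a) / (Fintype.card (A j) : ℝ) = (∑ h : H, u h * (v h c - m)) / M := by
      have h2 : ∑ h : H, u h * (v h c - m) = ∑ h : H, u h * v h c - (∑ h : H, u h) * m := by
        rw [Finset.sum_mul, ← Finset.sum_sub_distrib]
        apply Finset.sum_congr rfl
        intro h _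
        ring
      rw [h2]
      show (∑ h : H, u h * v h c) / M - (∑ h : H, u h) / M * m = _
      ring
    rw [h1, div_pow, sq (∑ h : H, u h * (v h c - m)), Finset.sum_mul_sum]
    congr 1
    apply Finset.sum_congr rfl
    intro h _
    apply Finset.sum_congr rfl
    intro h' _
    ring
  simp only [hL]
  have hE : (∑ c : ∀ j, A j, (∑ h : H, ∑ h' : H, u h * u h' * ((v h c - m) * (v h' c - m))) / M ^ 2) / N =
      (∑ h : H, ∑ h' : H, u h * u h' * ((∑ c, (v h c - m) * (v h' c - m)) / N)) / M ^ 2 := by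
    rw [← Finset.sum_div, div_div, mul_comm (M ^ 2) N, ← div_div]
    congr 1
    rw [Finset.sum_comm, Finset.sum_div]
    apply Finset.sum_congr rfl
    intro h _
    rw [Finset.sum_comm, Finset.sum_div]
    apply Finset.sum_congr rfl
    intro h' _
    rw [← Finset.mul_sum, mul_div_assoc]
  rw [hE]
  simp only [hcov]
  let w : ∀ j, A j → ℝ := fun j a => |R j a - μ j ^ 2|
  have hb : ∀ h h' : H, u h * u h' * (∏ j ∈ T, R j (φ h j * (φ h' j)⁻¹) -
      ∏ j ∈ T, μ j ^ 2) ≤ ∑ j ∈ T, w j (φ h j * (φ h' j)⁻¹) := by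
    intro h h'
    refine (le_abs_self _).trans ?_
    rw [abs_mul, abs_mul]
    have h1 : |u h| * |u h'| ≤ 1 := mul_le_one₀ (hu h) (abs_nonneg _) (hu h')
    have h2 := abs_prod_sub T (fun j => R j (φ h j * (φ h' j)⁻¹)) (fun j => μ j ^ 2)
      (fun j => hR j _) (fun j => by
        rw [abs_pow]
        exact pow_le_one₀ (abs_nonneg _) (hμ j))
    calc |u h| * |u h'| * |∏ j ∈ T, R j (φ h j * (φ h' j)⁻¹) - ∏ j ∈ T, μ j ^ 2|
        ≤ 1 * |∏ j ∈ T, R j (φ h j * (φ h' j)⁻¹) - ∏ j ∈ T, μ j ^ 2| :=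
          mul_le_mul_of_nonneg_right h1 (abs_nonneg _)
      _ ≤ _ := by rw [one_mul]; exact h2
  have hfin : (∑ h : H, ∑ h' : H, ∑ j ∈ T, w j (φ h j * (φ h' j)⁻¹)) =
      M * ∑ j ∈ T, ∑ h : H, w j (φ h j) := by
    rw [Finset.sum_comm]
    have h1 : ∀ h' : H, ∑ h : H, ∑ j ∈ T, w j (φ h j * (φ h' j)⁻¹) =
        ∑ j ∈ T, ∑ h : H, w j (φ h j) := by
      intro h'
      rw [Finset.sum_comm]
      apply Finset.sum_congr rfl
      intro j _
      rw [← Equiv.sum_comp (Equiv.mulRight (h'⁻¹)) (fun h : H => w j (φ h j))]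
      apply Finset.sum_congr rfl
      intro h _
      simp
    simp only [h1]
    rw [Finset.sum_const, Finset.card_univ, nsmul_eq_mul, hM]
  calc (∑ h : H, ∑ h' : H, u h * u h' * (∏ j ∈ T, R j (φ h j * (φ h' j)⁻¹) -
        ∏ j ∈ T, μ j ^ 2)) / M ^ 2
      ≤ (∑ h : H, ∑ h' : H, ∑ j ∈ T, w j (φ h j * (φ h' j)⁻¹)) / M ^ 2 := by
        apply div_le_div_of_nonneg_right _ (by positivity)
        exact Finset.sum_le_sum fun h _ => Finset.sum_le_sum fun h' _ => hb h h'
    _ = ∑ j ∈ T, (∑ h : H, w j (φ h j)) / M := by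
        rw [hfin, ← Finset.sum_div]
        field_simp
    _ = _ := rfl

/-- the projection of the image to one coordinate -/
theorem proj {A H : Type} [CommGroup A] [Fintype A] [Group H] [Fintype H] (θ : H →* A) (φ : A → ℝ)
    (hφ : ∀ a, 0 ≤ φ a) :
    (∑ h : H, φ (θ h)) / (Fintype.card H : ℝ) ≤
      (θ.range.index : ℝ) * ((∑ a, φ a) / (Fintype.card A : ℝ)) := by
  classical
  let act : MulAction H A := MulAction.compHom A θ
  have hact : ∀ (h : H) (a : A), h • a = θ h * a := fun h a => rfl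
  have h1 := orb A H φ 1
  have h2 : (∑ h : H, φ (h • (1 : A))) = ∑ h : H, φ (θ h) := by
    apply Finset.sum_congr rfl
    intro h _
    rw [hact, mul_one]
  rw [h2] at h1
  rw [← h1]
  have hfin : Fintype (MulAction.orbit H (1 : A)) := Fintype.ofFinite _
  rw [mean_eq_sum]
  have h3 : ∑ y : MulAction.orbit H (1 : A), φ y ≤ ∑ a, φ a := by
    have h4 : ∑ y : MulAction.orbit H (1 : A), φ y =
        ∑ a ∈ Finset.univ.map (Function.Embedding.subtype
          (fun a => a ∈ MulAction.orbit H (1 : A))), φ a := by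
      rw [Finset.sum_map]
      rfl
    rw [h4]
    exact Finset.sum_le_univ_sum_of_nonneg hφ
  have h5 : Nat.card θ.range ≤ Nat.card (MulAction.orbit H (1 : A)) := by
    refine Nat.card_le_card_of_injective (fun b => ⟨b, ?_⟩) fun b b' h => ?_
    · obtain ⟨σ, hσ⟩ := b.2
      refine ⟨σ, ?_⟩
      show σ • (1 : A) = b
      rw [hact, mul_one]
      exact hσ
    · have h' : (b : A) = b' :=
        congrArg (fun z : MulAction.orbit H (1 : A) => (z : A)) h
      exact Subtype.ext h'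
  have h6 : (Nat.card A : ℝ) = Nat.card θ.range * θ.range.index := by
    exact_mod_cast (θ.range.card_mul_index).symm
  rw [Nat.card_eq_fintype_card] at h6
  have h7 : (0 : ℝ) < Fintype.card A := by exact_mod_cast Fintype.card_pos
  have hne : (1 : A) ∈ MulAction.orbit H (1 : A) := MulAction.mem_orbit_self _
  have : Nonempty (MulAction.orbit H (1 : A)) := ⟨⟨1, hne⟩⟩
  have h8 : (0 : ℝ) < Fintype.card (MulAction.orbit H (1 : A)) := by
    exact_mod_cast Fintype.card_pos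
  rw [Nat.card_eq_fintype_card (α := MulAction.orbit H (1 : A))] at h5
  have h9 : (Fintype.card A : ℝ) ≤
      (Fintype.card (MulAction.orbit H (1 : A)) : ℝ) * θ.range.index := by
    rw [h6]
    apply mul_le_mul_of_nonneg_right _ (Nat.cast_nonneg _)
    exact_mod_cast h5
  have h10 : 0 ≤ ∑ a, φ a := Finset.sum_nonneg fun a _ => hφ a
  rw [div_le_iff₀ h8, mul_div_assoc', div_mul_eq_mul_div, le_div_iff₀ h7]
  calc (∑ y : MulAction.orbit H (1 : A), φ y) * (Fintype.card A : ℝ)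
      ≤ (∑ a, φ a) * ((Fintype.card (MulAction.orbit H (1 : A)) : ℝ) *
          θ.range.index) := mul_le_mul h3 h9 h7.le h10
    _ = _ := by ring

end Pool.Agent.P8H27.DC
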