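import Pool.Agent.P8H27.DC.Defs
import Pool.Agent.P8H27.DC.Var
import Pool.Agent.P8H27.LO.Orb
import Pool.Agent.P8H27.EQ.Fou

/-!
# The second moment
-/

set_option autoImplicit false

namespace Pool.Agent.P8H27.DC

open Pool.Agent.P8H27.EQ (mean mean_eq_sum mean_congr orb fou)
open Pool.Agent.P8H27.LO

/-- the mean over a set on which a finite group acts transitively -/
theorem avg_trans {R T : Type} [Group R] [Fintype R] [MulAction R T] (z : T)
    (htr : ∀ y : T, ∃ r : R, r • z = y) (g : T → ℝ) :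
    mean g (fun y : T => y) = (∑ r : R, g (r • z)) / (Fintype.card R : ℝ) := by
  rw [← orb T R g z]
  symm
  refine mean_congr (Equiv.ofBijective (fun y : MulAction.orbit R z => (y : T)) ⟨?_, ?_⟩) fun y => rfl
  · exact Subtype.val_injective
  · intro y
    obtain ⟨r, hr⟩ := htr y
    exact ⟨⟨y, ⟨r, hr⟩⟩, rfl⟩

section tuple

variable {G : Type} [Group G] {t : ℕ} {Y : Fin t → Type} [∀ j, MulAction G (Y j)]
  (p : ∀ j, GaloisPacket G (Y j)) {X : Type} [MulAction G X] (x : X)

/-- the orbit of `x` times the set of the tuples -/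
def Om : Type := MulAction.orbit G x × Tup p

instance omG : MulAction G (Om p x) :=
  inferInstanceAs (MulAction G (MulAction.orbit G x × Tup p))

instance omP : MulAction (Equiv.Perm (MulAction.orbit G x) × Equiv.Perm (Tup p)) (Om p x) where
  smul a w := (a.1 w.1, a.2 w.2)
  one_smul _ := rfl
  mul_smul _ _ _ := rfl

/-- the action of `G` -/
def gh : G →* Equiv.Perm (MulAction.orbit G x) × Equiv.Perm (Tup p) :=
  (MulAction.toPermHom G (MulAction.orbit G x)).prod (MulAction.toPermHom G (Tup p))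

/-- the finite quotient of `G` -/
abbrev Ga : Subgroup (Equiv.Perm (MulAction.orbit G x) × Equiv.Perm (Tup p)) := (gh p x).range

theorem orbit_Ga (w : Om p x) : MulAction.orbit (Ga p x) w = MulAction.orbit G w := by
  apply Set.Subset.antisymm
  · rintro _ ⟨⟨_, σ, rfl⟩, rfl⟩
    exact ⟨σ, rfl⟩
  · rintro _ ⟨σ, rfl⟩
    exact ⟨⟨gh p x σ, ⟨σ, rfl⟩⟩, rfl⟩

/-- the action of `N` -/
def nh : N p →* Equiv.Perm (MulAction.orbit G x) × AA p :=
  ((MulAction.toPermHom G (MulAction.orbit G x)).comp (N p).subtype).prod (rh p)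

/-- the finite quotient of `N` -/
abbrev Hn : Subgroup (Equiv.Perm (MulAction.orbit G x) × AA p) := (nh p x).range

variable (f : X → ℝ) (g : ∀ j, Y j → ℝ)

/-- the product function -/
def Fp (w : Om p x) : ℝ := f (w.1 : MulAction.orbit G x) * ∏ j, g j (w.2.fn j)

/-- the means of `g` over the packets -/
noncomputable def mj (j : Fin t) : ℝ := mean (g j) (fun z : (p j).pts => (z : Y j))

/-- the deviation -/
noncomputable def Dv [Fintype (Hn p x)] (w : Om p x) : ℝ :=
  (∑ h : Hn p x, f ((h : Equiv.Perm (MulAction.orbit G x) × AA p).1 w.1 : MulAction.orbit G x) *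
      ∏ j, g j (((h : Equiv.Perm (MulAction.orbit G x) × AA p).2 • w.2 : Tup p).fn j)) /
      (Fintype.card (Hn p x) : ℝ) -
  (∑ h : Hn p x, f ((h : Equiv.Perm (MulAction.orbit G x) × AA p).1 w.1 : MulAction.orbit G x)) /
      (Fintype.card (Hn p x) : ℝ) * ∏ j, mj p g j

/-- the mean of the deviation over the finite quotient of `G` -/
theorem mean_Dv [Fintype (Hn p x)] [Fintype (Ga p x)] (w : Om p x) :
    (∑ γ : Ga p x, Dv p x f g (γ • w)) / (Fintype.card (Ga p x) : ℝ) =
      (∑ γ : Ga p x, Fp p x f g (γ • w)) / (Fintype.card (Ga p x) : ℝ) -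
      (∑ γ : Ga p x, f ((γ • w : Om p x).1 : MulAction.orbit G x)) / (Fintype.card (Ga p x) : ℝ) *
        ∏ j, mj p g j := by
  classical
  have hH : (Fintype.card (Hn p x) : ℝ) ≠ 0 := by exact_mod_cast Fintype.card_ne_zero
  have h1 : ∑ γ : Ga p x, (∑ h : Hn p x,
      f ((h : Equiv.Perm (MulAction.orbit G x) × AA p).1 (γ • w : Om p x).1 : MulAction.orbit G x) *
      ∏ j, g j (((h : Equiv.Perm (MulAction.orbit G x) × AA p).2 • (γ • w : Om p x).2 : Tup p).fn j)) /
      (Fintype.card (Hn p x) : ℝ) = ∑ γ : Ga p x, Fp p x f g (γ • w) := by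
    rw [← Finset.sum_div, Finset.sum_comm, div_eq_iff hH]
    have h3 : ∀ h : Hn p x, ∑ γ : Ga p x,
        f ((h : Equiv.Perm (MulAction.orbit G x) × AA p).1 (γ • w : Om p x).1 :
          MulAction.orbit G x) *
        ∏ j, g j (((h : Equiv.Perm (MulAction.orbit G x) × AA p).2 •
          (γ • w : Om p x).2 : Tup p).fn j) = ∑ γ : Ga p x, Fp p x f g (γ • w) := by
      rintro ⟨_, σ, rfl⟩
      rw [← Equiv.sum_comp (Equiv.mulLeft (⟨gh p x σ, ⟨σ, rfl⟩⟩ : Ga p x))
        fun γ : Ga p x => Fp p x f g (γ • w)]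
      apply Finset.sum_congr rfl
      intro γ _
      have h4 : rh p σ • (γ • w : Om p x).2 = (σ : G) • (γ • w : Om p x).2 := rh_smul p σ _
      show f (((σ : G) • (γ • w : Om p x).1 : MulAction.orbit G x) : X) *
        ∏ j, g j ((rh p σ • (γ • w : Om p x).2 : Tup p).fn j) = _
      rw [h4]
      rfl
    rw [Finset.sum_congr rfl fun h _ => h3 h, Finset.sum_const, Finset.card_univ, nsmul_eq_mul,
      mul_comm]
  have h2 : ∑ γ : Ga p x, (∑ h : Hn p x,
      f ((h : Equiv.Perm (MulAction.orbit G x) × AA p).1 (γ • w : Om p x).1 : MulAction.orbit G x)) /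
      (Fintype.card (Hn p x) : ℝ) =
      ∑ γ : Ga p x, f ((γ • w : Om p x).1 : MulAction.orbit G x) := by
    rw [← Finset.sum_div, Finset.sum_comm, div_eq_iff hH]
    have h3 : ∀ h : Hn p x, ∑ γ : Ga p x,
        f ((h : Equiv.Perm (MulAction.orbit G x) × AA p).1 (γ • w : Om p x).1 :
          MulAction.orbit G x) = ∑ γ : Ga p x, f ((γ • w : Om p x).1 : MulAction.orbit G x) := by
      rintro ⟨_, σ, rfl⟩
      rw [← Equiv.sum_comp (Equiv.mulLeft (⟨gh p x σ, ⟨σ, rfl⟩⟩ : Ga p x))
        fun γ : Ga p x => f ((γ • w : Om p x).1 : MulAction.orbit G x)]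
      rfl
    rw [Finset.sum_congr rfl fun h _ => h3 h, Finset.sum_const, Finset.card_univ, nsmul_eq_mul,
      mul_comm]
  unfold Dv
  rw [Finset.sum_sub_distrib, ← Finset.sum_mul, h1, h2, sub_div]
  ring

end tuple

end Pool.Agent.P8H27.DC
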