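import Pool.Agent.P8H27.LO.Defs

/-!
# Definitions: families of packets of special points with bounds for their Weyl sums
-/

set_option autoImplicit false

namespace Pool.Agent.P8H27.DC

open MeasureTheory Pool.Agent.P8H27.EQ Pool.Agent.P8H27.LO

section family

variable {G : Type} [Group G] {Y : Type} [MulAction G Y]

/-- The indices of the groups `E` in the Galois group are bounded, and the image of `E` in the group `A` has the
index at most `disc ^ η`, for all `η > 0` and large `disc`. -/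
structure IsRich (𝔓 : Set (GaloisPacket G Y)) : Prop where
  degree : ∃ C : ℕ, ∀ p ∈ 𝔓, p.E.index ≤ C
  image : ∀ η : ℝ, 0 < η → ∃ D₀ : ℕ, ∀ p ∈ 𝔓, D₀ ≤ p.disc →
    (p.rho.range.index : ℝ) ≤ (p.disc : ℝ) ^ η

/-- The means of `f` over the packets tend to the integral of `f`, as `disc` tends to infinity. -/
def PacketsConverge [MeasurableSpace Y] (μ : ProbabilityMeasure Y) (𝔓 : Set (GaloisPacket G Y))
    (f : Y → ℝ) : Prop :=
  ∀ ε : ℝ, 0 < ε → ∃ D₀ : ℕ, ∀ p ∈ 𝔓, D₀ ≤ p.disc →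
    |mean f (fun z : p.pts => (z : Y)) - ∫ y, f y ∂(μ : Measure Y)| ≤ ε

/-- The Weyl sums of `f` for all characters `χ ≠ 1` of `A` are at most `C disc ^ (-δ)`, for some `C` and some
`δ > 0`. -/
def WeylSums (𝔓 : Set (GaloisPacket G Y)) (f : Y → ℝ) : Prop :=
  ∃ δ : ℝ, 0 < δ ∧ ∃ C : ℝ, ∀ p ∈ 𝔓, ∀ χ : p.A →* ℂ, χ ≠ 1 → ∀ z : p.pts,
    ‖(∑ᶠ a : p.A, χ a * (f ((a • z : p.pts) : Y) : ℂ)) / Nat.card p.A‖ ≤ C * (p.disc : ℝ) ^ (-δ)

end family

end Pool.Agent.P8H27.DC
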