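import Pool.Agent.P8H27.DC.Mom

/-!
# Decoupling for almost all tuples
-/

set_option autoImplicit false

namespace Pool.Agent.P8H27.DC

open MeasureTheory Filter Topology
open Pool.Agent.P8H27.EQ (mean mean_eq_sum mean_congr orb fou)
open Pool.Agent.P8H27.LO

section tuple

variable {G : Type} [Group G] {t : ℕ} {Y : Fin t → Type} [∀ j, MulAction G (Y j)]
  (p : ∀ j, GaloisPacket G (Y j))

/-- the index of the image of `N` -/
theorem rj_index (j : Fin t) :
    (rj p j).range.index ≤ (p j).rho.range.index * ∏ k, (p k).E.index := by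
  classical
  -- the image of `N` has at most the index of `N` in the image of `E`
  set M : Subgroup (p j).E := (N p).subgroupOf (p j).E with hM
  have h1 : (rj p j).range = M.map (p j).rho := by
    ext a
    constructor
    · rintro ⟨σ, rfl⟩
      exact Subgroup.mem_map.2 ⟨Subgroup.inclusion (N_le p j) σ, σ.2, rfl⟩
    · intro ha
      obtain ⟨σ, hσ, rfl⟩ := Subgroup.mem_map.1 ha
      exact ⟨⟨σ, hσ⟩, rfl⟩
  have h2 : (M.map (p j).rho).index ≤ M.index * (p j).rho.range.index := by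
    have h3 : (M.map (p j).rho).relIndex (p j).rho.range * (p j).rho.range.index =
        (M.map (p j).rho).index :=
      Subgroup.relIndex_mul_index (by
        rintro _ ⟨σ, _, rfl⟩
        exact ⟨σ, rfl⟩)
    rw [← h3]
    apply Nat.mul_le_mul_right
    have h4 : (M.map (p j).rho).relIndex (p j).rho.range =
        ((M.map (p j).rho).comap (p j).rho).index := by
      rw [Subgroup.index_comap]
    rw [h4]
    have h5 : M.index ≠ 0 := Subgroup.FiniteIndex.index_ne_zero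
    exact Nat.le_of_dvd (Nat.pos_of_ne_zero h5)
      (Subgroup.index_dvd_of_le (Subgroup.le_comap_map _ _))
  have h6 : M.index ≤ ∏ k, (p k).E.index := by
    have h7 : M.index ∣ (N p).index := by
      have : M.index = (N p).relIndex (p j).E := rfl
      rw [this]
      exact Subgroup.relIndex_dvd_index_of_normal _ _
    exact (Nat.le_of_dvd (Nat.pos_of_ne_zero Subgroup.FiniteIndex.index_ne_zero) h7).trans
      (Subgroup.index_iInf_le _)
  rw [h1, mul_comm]
  exact h2.trans (Nat.mul_le_mul_right _ h6)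

end tuple

/-- the difference of two products -/
theorem prod_near {ι : Type} [Fintype ι] (a b : ι → ℝ) (ha : ∀ j, |a j| ≤ 1) (hb : ∀ j, |b j| ≤ 1)
    {ε : ℝ} (h : ∀ j, |a j - b j| ≤ ε) : |∏ j, a j - ∏ j, b j| ≤ Fintype.card ι * ε := by
  refine (Pool.Agent.P8H27.EQ.abs_prod_sub Finset.univ a b ha hb).trans ?_
  refine (Finset.sum_le_sum fun j _ => h j).trans ?_
  rw [Finset.sum_const, Finset.card_univ, nsmul_eq_mul]

/-- the mean of a bounded function is bounded -/
theorem mean_le_one {B Z : Type} (f : Z → ℝ) (hf : ∀ z, |f z| ≤ 1) (φ : B → Z) :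
    |mean f φ| ≤ 1 := by
  classical
  rcases finite_or_infinite B with hB | hB
  · have : Fintype B := Fintype.ofFinite B
    rw [mean_eq_sum, abs_div, Nat.abs_cast]
    apply div_le_one_of_le₀ _ (Nat.cast_nonneg _)
    refine (Finset.abs_sum_le_sum_abs _ _).trans ?_
    refine (Finset.sum_le_sum fun b _ => hf _).trans ?_
    rw [Finset.sum_const, Finset.card_univ, nsmul_eq_mul, mul_one]
  · unfold mean
    rw [Nat.card_eq_zero_of_infinite, Nat.cast_zero, div_zero, abs_zero]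
    exact zero_le_one

variable {G : Type} [Group G] {t : ℕ} {Y : Fin t → Type} [∀ j, MulAction G (Y j)]
  [∀ j, MeasurableSpace (Y j)]

/-- **decoupling for almost all tuples** -/
theorem decoupling (μ : ∀ j, ProbabilityMeasure (Y j)) (𝔓 : ∀ j, Set (GaloisPacket G (Y j)))
    (h𝔓 : ∀ j, IsRich (𝔓 j)) (g : ∀ j, Y j → ℝ) (hg : ∀ j y, |g j y| ≤ 1)
    (hc : ∀ j, PacketsConverge (μ j) (𝔓 j) (g j)) (hW : ∀ j, WeylSums (𝔓 j) (g j))
    (ε : ℝ) (hε : 0 < ε) :
    ∃ D₀ : ℕ, ∀ p : ∀ j, GaloisPacket G (Y j), (∀ j, p j ∈ 𝔓 j) → (∀ j, D₀ ≤ (p j).disc) →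
      ∀ (X : Type) [MulAction G X] (x : X), (MulAction.orbit G x).Finite →
      ∀ f : X → ℝ, (∀ z, |f z| ≤ 1) →
      (Nat.card {y : ∀ j, (p j).pts // ε <
        |mean (fun z : X × (∀ j, Y j) => f z.1 * ∏ j, g j (z.2 j))
          (fun z : MulAction.orbit G ((x, fun j => (y j : Y j)) : X × (∀ j, Y j)) =>
            (z : X × (∀ j, Y j))) -
          mean f (fun z : MulAction.orbit G x => (z : X)) *
            ∏ j, ∫ y, g j y ∂(μ j : Measure (Y j))|} : ℝ) ≤
      ε * Nat.card (∀ j, (p j).pts) := by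
  classical
  choose δ hδ C hCW using hW
  choose Cd hCd using fun j => (h𝔓 j).degree
  -- the constant
  set K : ℝ := ((∏ k, Cd k : ℕ) : ℝ) with hK
  have hK0 : 0 ≤ K := Nat.cast_nonneg _
  -- every term of the bound is small
  have hterm : ∀ j, ∀ η : ℝ, 0 < η → ∃ D : ℕ, ∀ p : ∀ j, GaloisPacket G (Y j), (∀ j, p j ∈ 𝔓 j) →
      D ≤ (p j).disc →
      ((rj p j).range.index : ℝ) * (|C j| * ((p j).disc : ℝ) ^ (-δ j)) ≤ η := by
    intro j η hη
    obtain ⟨D₁, h1⟩ := (h𝔓 j).image (δ j / 2) (half_pos (hδ j))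
    have h2 : Tendsto (fun D : ℕ => (D : ℝ) ^ (-(δ j / 2)) * (K * |C j|)) atTop (𝓝 0) := by
      have h3 : Tendsto (fun D : ℕ => (D : ℝ) ^ (-(δ j / 2))) atTop (𝓝 0) :=
        (tendsto_rpow_neg_atTop (half_pos (hδ j))).comp tendsto_natCast_atTop_atTop
      simpa using h3.mul_const (K * |C j|)
    obtain ⟨D₂, h3⟩ := eventually_atTop.1 (h2.eventually_lt_const hη)
    refine ⟨max 1 (max D₁ D₂), fun p hp hD => ?_⟩
    have hd1 : 1 ≤ (p j).disc := (le_max_left _ _).trans hD
    have hd2 : D₁ ≤ (p j).disc := (le_max_left _ _).trans ((le_max_right _ _).trans hD)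
    have hd3 : D₂ ≤ (p j).disc := (le_max_right _ _).trans ((le_max_right _ _).trans hD)
    have hpos : (0 : ℝ) < (p j).disc := by exact_mod_cast hd1
    have h4 : ((rj p j).range.index : ℝ) ≤ ((p j).disc : ℝ) ^ (δ j / 2) * K := by
      have h5 : ((rj p j).range.index : ℝ) ≤
          ((p j).rho.range.index : ℝ) * ((∏ k, (p k).E.index : ℕ) : ℝ) := by
        exact_mod_cast rj_index p j
      refine h5.trans ?_
      apply mul_le_mul (h1 (p j) (hp j) hd2) _ (Nat.cast_nonneg _) (Real.rpow_nonneg hpos.le _)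
      rw [hK]
      exact_mod_cast Finset.prod_le_prod' fun k _ => hCd k (p k) (hp k)
    have h6 : 0 ≤ |C j| * ((p j).disc : ℝ) ^ (-δ j) :=
      mul_nonneg (abs_nonneg _) (Real.rpow_nonneg hpos.le _)
    calc ((rj p j).range.index : ℝ) * (|C j| * ((p j).disc : ℝ) ^ (-δ j))
        ≤ (((p j).disc : ℝ) ^ (δ j / 2) * K) * (|C j| * ((p j).disc : ℝ) ^ (-δ j)) :=
          mul_le_mul_of_nonneg_right h4 h6
      _ = (((p j).disc : ℝ) ^ (δ j / 2) * ((p j).disc : ℝ) ^ (-δ j)) * (K * |C j|) := by ring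
      _ = ((p j).disc : ℝ) ^ (-(δ j / 2)) * (K * |C j|) := by
          rw [← Real.rpow_add hpos]
          congr 2
          ring
      _ ≤ η := (h3 _ hd3).le
  -- the sizes
  have ht : (0 : ℝ) < (t : ℝ) + 1 := by positivity
  set η₁ : ℝ := (ε / 2) ^ 2 * ε / (t + 1) with hη₁
  have hη1 : 0 < η₁ := by rw [hη₁]; positivity
  choose D₁ hD₁ using fun j => hterm j η₁ hη1
  have hε2 : 0 < ε / 2 / (t + 1) := by positivity
  choose D₂ hD₂ using fun j => hc j (ε / 2 / (t + 1)) hε2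
  refine ⟨∑ j, (D₁ j + D₂ j), fun p hp hD X _ x hx f hf => ?_⟩
  have hDj : ∀ j, D₁ j ≤ (p j).disc ∧ D₂ j ≤ (p j).disc := by
    intro j
    have h1 : D₁ j + D₂ j ≤ ∑ j, (D₁ j + D₂ j) :=
      Finset.single_le_sum (f := fun j => D₁ j + D₂ j) (fun _ _ => Nat.zero_le _)
        (Finset.mem_univ j)
    have h2 := hD j
    omega
  have hT : Fintype (Tup p) := Fintype.ofFinite _
  have hcore := core p x f g hf hg (fun j => |C j| * ((p j).disc : ℝ) ^ (-δ j))
    (fun j => mul_nonneg (abs_nonneg _) (Real.rpow_nonneg (Nat.cast_nonneg _) _))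
    (fun j χ hχ z => (hCW j (p j) (hp j) χ hχ z).trans
      (mul_le_mul_of_nonneg_right (le_abs_self _) (Real.rpow_nonneg (Nat.cast_nonneg _) _))) hx
  set Mn : Tup p → ℝ := fun y => mean (fun z : X × (∀ j, Y j) => f z.1 * ∏ j, g j (z.2 j))
    (fun z : MulAction.orbit G ((x, pt p y) : X × (∀ j, Y j)) => (z : X × (∀ j, Y j))) with hMn
  set M0 : ℝ := mean f (fun z : MulAction.orbit G x => (z : X)) with hM0
  have hB : ∑ j, ((rj p j).range.index : ℝ) * (|C j| * ((p j).disc : ℝ) ^ (-δ j)) ≤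
      (ε / 2) ^ 2 * ε := by
    refine (Finset.sum_le_sum fun j _ => hD₁ j p hp (hDj j).1).trans ?_
    rw [Finset.sum_const, Finset.card_univ, nsmul_eq_mul, Fintype.card_fin, hη₁,
      mul_div_assoc', div_le_iff₀ ht]
    have h1 : 0 ≤ (ε / 2) ^ 2 * ε := by positivity
    nlinarith
  have hcore2 : ∑ y : Tup p, (Mn y - M0 * ∏ j, mj p g j) ^ 2 ≤
      (Fintype.card (Tup p) : ℝ) * ((ε / 2) ^ 2 * ε) :=
    hcore.trans (mul_le_mul_of_nonneg_left hB (Nat.cast_nonneg _))
  -- the products of the integrals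
  have hint : ∀ j, |∫ y, g j y ∂(μ j : Measure (Y j))| ≤ 1 := by
    intro j
    have h1 := norm_integral_le_of_norm_le_const (μ := (μ j : Measure (Y j))) (f := g j) (C := 1)
      (Filter.Eventually.of_forall fun y => by rw [Real.norm_eq_abs]; exact hg j y)
    rw [Real.norm_eq_abs] at h1
    simpa using h1
  have hprod : |∏ j, mj p g j - ∏ j, ∫ y, g j y ∂(μ j : Measure (Y j))| ≤ ε / 2 := by
    have h1 := prod_near (fun j => mj p g j) (fun j => ∫ y, g j y ∂(μ j : Measure (Y j)))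
      (fun j => mean_le_one _ (hg j) _) hint (fun j => hD₂ j (p j) (hp j) (hDj j).2)
    refine h1.trans ?_
    rw [Fintype.card_fin, mul_div_assoc', div_le_iff₀ ht]
    nlinarith
  have hM01 : |M0| ≤ 1 := mean_le_one _ hf _
  -- the exceptions
  have hsub : ∀ y : Tup p, ε < |Mn y - M0 * ∏ j, ∫ y, g j y ∂(μ j : Measure (Y j))| →
      (ε / 2) ^ 2 ≤ (Mn y - M0 * ∏ j, mj p g j) ^ 2 := by
    intro y hy
    have h1 : |M0 * ∏ j, mj p g j - M0 * ∏ j, ∫ y, g j y ∂(μ j : Measure (Y j))| ≤ ε / 2 := by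
      rw [← mul_sub, abs_mul]
      calc |M0| * |∏ j, mj p g j - ∏ j, ∫ y, g j y ∂(μ j : Measure (Y j))| ≤ 1 * (ε / 2) :=
            mul_le_mul hM01 hprod (abs_nonneg _) zero_le_one
        _ = _ := one_mul _
    have h2 : |Mn y - M0 * ∏ j, ∫ y, g j y ∂(μ j : Measure (Y j))| ≤
        |Mn y - M0 * ∏ j, mj p g j| +
          |M0 * ∏ j, mj p g j - M0 * ∏ j, ∫ y, g j y ∂(μ j : Measure (Y j))| := by
      have : Mn y - M0 * ∏ j, ∫ y, g j y ∂(μ j : Measure (Y j)) = (Mn y - M0 * ∏ j, mj p g j) +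
          (M0 * ∏ j, mj p g j - M0 * ∏ j, ∫ y, g j y ∂(μ j : Measure (Y j))) := by ring
      rw [this]
      exact abs_add_le _ _
    have h3 : ε / 2 ≤ |Mn y - M0 * ∏ j, mj p g j| := by linarith
    rw [← sq_abs (Mn y - M0 * ∏ j, mj p g j)]
    exact pow_le_pow_left₀ (by positivity) h3 2
  have hcount : (Nat.card {y : Tup p //
      ε < |Mn y - M0 * ∏ j, ∫ y, g j y ∂(μ j : Measure (Y j))|} : ℝ) * (ε / 2) ^ 2 ≤
      ∑ y : Tup p, (Mn y - M0 * ∏ j, mj p g j) ^ 2 := by
    rw [Nat.card_eq_fintype_card, Fintype.card_subtype]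
    rw [← nsmul_eq_mul, ← Finset.sum_const]
    refine le_trans ?_ (Finset.sum_le_sum_of_subset_of_nonneg (Finset.filter_subset
      (fun y : Tup p => ε < |Mn y - M0 * ∏ j, ∫ y, g j y ∂(μ j : Measure (Y j))|) Finset.univ)
      (fun y _ _ => sq_nonneg _))
    apply Finset.sum_le_sum
    intro y hy
    exact hsub y (Finset.mem_filter.1 hy).2
  have hfin := hcount.trans hcore2
  have hε4 : 0 < (ε / 2) ^ 2 := by positivity
  have h9 : (Nat.card {y : Tup p //
      ε < |Mn y - M0 * ∏ j, ∫ y, g j y ∂(μ j : Measure (Y j))|} : ℝ) ≤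
      ε * Fintype.card (Tup p) := by
    refine le_of_mul_le_mul_right ?_ hε4
    refine hfin.trans (le_of_eq ?_)
    ring
  have h10 : Nat.card (∀ j, (p j).pts) = Fintype.card (Tup p) := by
    rw [← Nat.card_eq_fintype_card]
    rfl
  rw [h10]
  exact h9

end Pool.Agent.P8H27.DC
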