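import Pool.Agent.P8H27.DC.Core

/-!
# The second moment of the deviation
-/

set_option autoImplicit false

namespace Pool.Agent.P8H27.DC

open Pool.Agent.P8H27.EQ (mean mean_eq_sum mean_congr orb fou)
open Pool.Agent.P8H27.LO

section tuple

variable {G : Type} [Group G] {t : ℕ} {Y : Fin t → Type} [∀ j, MulAction G (Y j)]
  (p : ∀ j, GaloisPacket G (Y j)) {X : Type} [MulAction G X] (x : X)

/-- the action of `N` on one coordinate -/
def rj (j : Fin t) : N p →* (p j).A := (Pi.evalMonoidHom (fun j => (p j).A) j).comp (rh p)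

/-- the action of `Hn` on one coordinate -/
def tj (j : Fin t) : Hn p x →* (p j).A :=
  (Pi.evalMonoidHom (fun j => (p j).A) j).comp
    ((MonoidHom.snd (Equiv.Perm (MulAction.orbit G x)) (AA p)).comp (Hn p x).subtype)

theorem tj_range (j : Fin t) : (tj p x j).range = (rj p j).range := by
  ext a
  constructor
  · rintro ⟨⟨_, σ, rfl⟩, rfl⟩
    exact ⟨σ, rfl⟩
  · rintro ⟨σ, rfl⟩
    exact ⟨⟨nh p x σ, ⟨σ, rfl⟩⟩, rfl⟩

variable (f : X → ℝ) (g : ∀ j, Y j → ℝ) (hf : ∀ x, |f x| ≤ 1) (hg : ∀ j y, |g j y| ≤ 1) (w : Fin t → ℝ)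
  (hw : ∀ j, 0 ≤ w j) (hW : ∀ j, ∀ χ : (p j).A →* ℂ, χ ≠ 1 → ∀ z : (p j).pts,
    ‖(∑ᶠ a : (p j).A, χ a * (g j ((a • z : (p j).pts) : Y j) : ℂ)) / Nat.card (p j).A‖ ≤ w j)

include hf hg hw hW in
theorem sq_Dv [Fintype (Hn p x)] [Fintype (Tup p)] (x' : MulAction.orbit G x) :
    ∑ y : Tup p, (Dv p x f g ((x', y) : MulAction.orbit G x × Tup p)) ^ 2 ≤
      (Fintype.card (Tup p) : ℝ) * ∑ j, ((rj p j).range.index : ℝ) * w j := by
  classical
  rcases isEmpty_or_nonempty (Tup p) with he | ⟨⟨z⟩⟩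
  · have : Fintype.card (Tup p) = 0 := Fintype.card_eq_zero
    rw [this, Nat.cast_zero, zero_mul, Finset.univ_eq_empty, Finset.sum_empty]
  have hA : ∀ j, Fintype (p j).A := fun j => Fintype.ofFinite _
  let hAA : Fintype (AA p) := inferInstanceAs (Fintype (∀ j, (p j).A))
  have hT : (0 : ℝ) < Fintype.card (Tup p) := by
    have : Nonempty (Tup p) := ⟨z⟩
    exact_mod_cast Fintype.card_pos
  set F : ∀ j, (p j).A → ℝ := fun j a => g j ((a • z.fn j : (p j).pts) : Y j) with hF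
  set u : Hn p x → ℝ := fun h =>
    f ((h : Equiv.Perm (MulAction.orbit G x) × AA p).1 x' : MulAction.orbit G x) with hu
  set φ : Hn p x →* (∀ j, (p j).A) :=
    ((MonoidHom.snd (Equiv.Perm (MulAction.orbit G x)) (AA p)).comp (Hn p x).subtype) with hφ
  have h1 := avg_trans (R := AA p) (T := Tup p) z (fun y => by
    choose a ha using fun j => (p j).transitive (z.fn j) (y.fn j)
    exact ⟨a, funext fun j => ha j⟩)
    (fun y : Tup p => (Dv p x f g ((x', y) : MulAction.orbit G x × Tup p)) ^ 2)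
  rw [mean_eq_sum] at h1
  have hm : ∀ j, (∑ a, F j a) / (Fintype.card (p j).A : ℝ) = mj p g j := by
    intro j
    exact (avg_trans (R := (p j).A) (T := (p j).pts) (z.fn j)
      (fun y => (p j).transitive (z.fn j) y) (fun y => g j y)).symm
  have h2 : ∀ c : AA p, Dv p x f g ((x', c • z) : MulAction.orbit G x × Tup p) =
      (∑ h : Hn p x, u h * ∏ j, F j (φ h j * c.fn j)) / (Fintype.card (Hn p x) : ℝ) -
      (∑ h : Hn p x, u h) / (Fintype.card (Hn p x) : ℝ) *
        ∏ j, (∑ a, F j a) / (Fintype.card (p j).A : ℝ) := by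
    intro c
    unfold Dv
    congr 1
    · congr 1
      apply Finset.sum_congr rfl
      intro h _
      congr 1
      apply Finset.prod_congr rfl
      intro j _
      show g j ((φ h j • (c.fn j • z.fn j) : (p j).pts) : Y j) = F j (φ h j * c.fn j)
      rw [smul_smul]
    · congr 1
      exact Finset.prod_congr rfl fun j _ => (hm j).symm
  have h3 := varg φ u (fun h => hf _) F (fun j a => hg j _)
  have h4 : (∑ c : AA p, (Dv p x f g ((x', c • z) : MulAction.orbit G x × Tup p)) ^ 2) /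
      (Fintype.card (AA p) : ℝ) ≤
      ∑ j, (∑ h : Hn p x, |(∑ a, F j (φ h j * a) * F j a) / (Fintype.card (p j).A : ℝ) -
      ((∑ a, F j a) / (Fintype.card (p j).A : ℝ)) ^ 2|) / (Fintype.card (Hn p x) : ℝ) := by
    have h4 : ∑ c : AA p, (Dv p x f g ((x', c • z) : MulAction.orbit G x × Tup p)) ^ 2 =
        ∑ c : AA p, ((∑ h : Hn p x, u h * ∏ j, F j (φ h j * c.fn j)) /
          (Fintype.card (Hn p x) : ℝ) - (∑ h : Hn p x, u h) / (Fintype.card (Hn p x) : ℝ) *
          ∏ j, (∑ a, F j a) / (Fintype.card (p j).A : ℝ)) ^ 2 :=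
      Finset.sum_congr rfl fun c _ => by rw [h2 c]
    rw [h4]
    exact h3
  have h5 : ∀ j, (∑ h : Hn p x, |(∑ a, F j (φ h j * a) * F j a) / (Fintype.card (p j).A : ℝ) -
      ((∑ a, F j a) / (Fintype.card (p j).A : ℝ)) ^ 2|) / (Fintype.card (Hn p x) : ℝ) ≤
      ((rj p j).range.index : ℝ) * w j := by
    intro j
    have h6 := proj (tj p x j)
      (fun b => |(∑ a, F j (b * a) * F j a) / (Fintype.card (p j).A : ℝ) -
      ((∑ a, F j a) / (Fintype.card (p j).A : ℝ)) ^ 2|) (fun b => abs_nonneg _)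
    rw [tj_range] at h6
    refine h6.trans ?_
    apply mul_le_mul_of_nonneg_left _ (Nat.cast_nonneg _)
    apply fou (p j).A (F j) (w j) (fun a => hg j _) (hw j)
    intro χ hχ
    have h7 := hW j χ hχ (z.fn j)
    rw [finsum_eq_sum_of_fintype, Nat.card_eq_fintype_card] at h7
    exact h7
  have h8 : (∑ y : Tup p, (Dv p x f g ((x', y) : MulAction.orbit G x × Tup p)) ^ 2) /
      (Fintype.card (Tup p) : ℝ) ≤ ∑ j, ((rj p j).range.index : ℝ) * w j := by
    rw [h1]
    exact h4.trans (Finset.sum_le_sum fun j _ => h5 j)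
  rw [div_le_iff₀ hT] at h8
  rw [mul_comm]
  exact h8

include hf hg hw hW in
/-- **the second moment** -/
theorem core [Fintype (Tup p)] (hfin : (MulAction.orbit G x).Finite) :
    ∑ y : Tup p, (mean (fun z : X × (∀ j, Y j) => f z.1 * ∏ j, g j (z.2 j))
        (fun z : MulAction.orbit G ((x, pt p y) : X × (∀ j, Y j)) => (z : X × (∀ j, Y j))) -
      mean f (fun z : MulAction.orbit G x => (z : X)) * ∏ j, mj p g j) ^ 2 ≤
      (Fintype.card (Tup p) : ℝ) * ∑ j, ((rj p j).range.index : ℝ) * w j := by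
  classical
  have hfo : Finite (MulAction.orbit G x) := hfin.to_subtype
  have hH : Fintype (Hn p x) := Fintype.ofFinite _
  have hΓ : Fintype (Ga p x) := Fintype.ofFinite _
  set x₀ : MulAction.orbit G x := ⟨x, MulAction.mem_orbit_self x⟩ with hx₀
  set Bd := ∑ j, ((rj p j).range.index : ℝ) * w j with hBd
  have hΓ0 : (0 : ℝ) < Fintype.card (Ga p x) := by exact_mod_cast Fintype.card_pos
  let om : Tup p → Om p x := fun y => (x₀, y)
  -- the means
  have hM : ∀ y : Tup p, mean (fun z : X × (∀ j, Y j) => f z.1 * ∏ j, g j (z.2 j))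
        (fun z : MulAction.orbit G ((x, pt p y) : X × (∀ j, Y j)) => (z : X × (∀ j, Y j))) =
      (∑ γ : Ga p x, Fp p x f g (γ • om y)) / (Fintype.card (Ga p x) : ℝ) := by
    intro y
    rw [← orb (Om p x) (Ga p x) (Fp p x f g) (om y)]
    symm
    let e : Om p x → X × (∀ j, Y j) := fun w => ((w.1 : X), pt p w.2)
    have he : Function.Injective e := by
      rintro ⟨a, b⟩ ⟨c, d⟩ h
      have h1 : (a : X) = c := congrArg Prod.fst h
      have h2 : pt p b = pt p d := congrArg Prod.snd h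
      exact Prod.ext (Subtype.ext h1) (pt_inj p h2)
    have h1 : ∀ w : MulAction.orbit (Ga p x) (om y), e w ∈
        MulAction.orbit G ((x, pt p y) : X × (∀ j, Y j)) := by
      rintro ⟨w, hw⟩
      rw [orbit_Ga] at hw
      obtain ⟨σ, rfl⟩ := hw
      exact ⟨σ, rfl⟩
    refine mean_congr (Equiv.ofBijective (fun w => ⟨e w, h1 w⟩) ⟨?_, ?_⟩) fun w => rfl
    · intro w w' h
      have h2 := congrArg Subtype.val h
      exact Subtype.ext (he h2)
    · rintro ⟨_, σ, rfl⟩
      refine ⟨⟨σ • om y, ?_⟩, rfl⟩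
      rw [orbit_Ga]
      exact ⟨σ, rfl⟩
  have hM0 : ∀ y : Tup p, mean f (fun z : MulAction.orbit G x => (z : X)) =
      (∑ γ : Ga p x, f ((γ • om y : Om p x).1 : MulAction.orbit G x)) /
        (Fintype.card (Ga p x) : ℝ) := by
    intro y
    let act : MulAction (Ga p x) (MulAction.orbit G x) := MulAction.compHom _
      ((MonoidHom.fst (Equiv.Perm (MulAction.orbit G x)) (Equiv.Perm (Tup p))).comp
        (Ga p x).subtype)
    have h1 := avg_trans (R := Ga p x) (T := MulAction.orbit G x) x₀ (by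
      rintro ⟨_, σ, rfl⟩
      exact ⟨⟨gh p x σ, ⟨σ, rfl⟩⟩, rfl⟩) (fun z => f z)
    exact h1
  have h1 : ∀ y : Tup p, (mean (fun z : X × (∀ j, Y j) => f z.1 * ∏ j, g j (z.2 j))
        (fun z : MulAction.orbit G ((x, pt p y) : X × (∀ j, Y j)) => (z : X × (∀ j, Y j))) -
      mean f (fun z : MulAction.orbit G x => (z : X)) * ∏ j, mj p g j) ^ 2 ≤
      (∑ γ : Ga p x, (Dv p x f g (γ • om y)) ^ 2) / (Fintype.card (Ga p x) : ℝ) := by
    intro y
    rw [hM y, hM0 y, ← mean_Dv, div_pow, div_le_div_iff₀ (by positivity) hΓ0]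
    have h2 := sq_sum_le_card_mul_sum_sq (s := (Finset.univ : Finset (Ga p x)))
      (f := fun γ => Dv p x f g (γ • om y))
    rw [Finset.card_univ] at h2
    calc (∑ γ : Ga p x, Dv p x f g (γ • om y)) ^ 2 * (Fintype.card (Ga p x) : ℝ)
        ≤ ((Fintype.card (Ga p x) : ℝ) * ∑ γ : Ga p x, (Dv p x f g (γ • om y)) ^ 2) *
          (Fintype.card (Ga p x) : ℝ) := mul_le_mul_of_nonneg_right h2 hΓ0.le
      _ = _ := by ring
  refine (Finset.sum_le_sum fun y _ => h1 y).trans ?_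
  rw [← Finset.sum_div, Finset.sum_comm, div_le_iff₀ hΓ0]
  have h3 : ∀ γ : Ga p x, ∑ y : Tup p, (Dv p x f g (γ • om y)) ^ 2 ≤
      (Fintype.card (Tup p) : ℝ) * Bd := by
    rintro ⟨a, ha⟩
    have h4 := sq_Dv p x f g hf hg w hw hW (a.1 x₀)
    rw [← Equiv.sum_comp a.2 fun y : Tup p =>
      (Dv p x f g ((a.1 x₀, y) : MulAction.orbit G x × Tup p)) ^ 2] at h4
    exact h4
  refine (Finset.sum_le_sum fun γ _ => h3 γ).trans ?_
  rw [Finset.sum_const, Finset.card_univ, nsmul_eq_mul, mul_comm]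

end tuple

end Pool.Agent.P8H27.DC
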