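import Pool.Agent.P8H27.DC.Fin

/-!
# Power savings, and decoupling from many points simultaneously
-/

set_option autoImplicit false

namespace Pool.Agent.P8H27.DC

open MeasureTheory Filter Topology
open Pool.Agent.P8H27.EQ (mean mean_eq_sum mean_congr orb fou)
open Pool.Agent.P8H27.LO

/-- The means of `f` over the packets differ from the integral of `f` by at most `C disc ^ (-δ)`, for some `C` and
some `δ > 0`. -/
def ConvergeFast {G : Type} [Group G] {Y : Type} [MulAction G Y] [MeasurableSpace Y]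
    (μ : ProbabilityMeasure Y) (𝔓 : Set (GaloisPacket G Y)) (f : Y → ℝ) : Prop :=
  ∃ δ : ℝ, 0 < δ ∧ ∃ C : ℝ, ∀ p ∈ 𝔓,
    |mean f (fun z : p.pts => (z : Y)) - ∫ y, f y ∂(μ : Measure Y)| ≤ C * (p.disc : ℝ) ^ (-δ)

theorem exists_delta {ι : Type} [Finite ι] (d : ι → ℝ) (hd : ∀ j, 0 < d j) :
    ∃ δ : ℝ, 0 < δ ∧ ∀ j, δ ≤ d j := by
  rcases isEmpty_or_nonempty ι with h | h
  · exact ⟨1, one_pos, fun j => (h.false j).elim⟩
  · obtain ⟨i, hi⟩ := Finite.exists_min d
    exact ⟨d i, hd i, hi⟩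

theorem ev_small (c β : ℝ) (hβ : 0 < β) : ∃ D₀ : ℕ, ∀ D : ℕ, D₀ ≤ D → c * (D : ℝ) ^ (-β) ≤ 1 := by
  have h1 : Tendsto (fun D : ℕ => c * (D : ℝ) ^ (-β)) atTop (𝓝 (c * 0)) :=
    ((tendsto_rpow_neg_atTop hβ).comp tendsto_natCast_atTop_atTop).const_mul c
  rw [mul_zero] at h1
  obtain ⟨D₀, h2⟩ := eventually_atTop.1 (h1.eventually_lt_const zero_lt_one)
  exact ⟨D₀, fun D hD => (h2 D hD).le⟩

variable {G : Type} [Group G] {t : ℕ} {Y : Fin t → Type} [∀ j, MulAction G (Y j)]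
  [∀ j, MeasurableSpace (Y j)]

/-- **decoupling with a power saving, simultaneously for many points** -/
theorem power (μ : ∀ j, ProbabilityMeasure (Y j)) (𝔓 : ∀ j, Set (GaloisPacket G (Y j)))
    (h𝔓 : ∀ j, IsRich (𝔓 j)) (g : ∀ j, Y j → ℝ) (hg : ∀ j y, |g j y| ≤ 1)
    (hc : ∀ j, ConvergeFast (μ j) (𝔓 j) (g j)) (hW : ∀ j, WeylSums (𝔓 j) (g j)) :
    ∃ κ : ℝ, 0 < κ ∧ ∃ D₀ : ℕ, ∀ D : ℕ, D₀ ≤ D → ∀ p : ∀ j, GaloisPacket G (Y j),
      (∀ j, p j ∈ 𝔓 j) → (∀ j, D ≤ (p j).disc) →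
      ∀ (J : Type) [Finite J] (X : J → Type) [∀ i, MulAction G (X i)] (x : ∀ i, X i),
      (∀ i, (MulAction.orbit G (x i)).Finite) → ∀ f : ∀ i, X i → ℝ, (∀ i z, |f i z| ≤ 1) →
      (Nat.card J : ℝ) ≤ (D : ℝ) ^ κ →
      (Nat.card {y : ∀ j, (p j).pts // ∃ i, (D : ℝ) ^ (-κ) <
        |mean (fun z : X i × (∀ j, Y j) => f i z.1 * ∏ j, g j (z.2 j))
          (fun z : MulAction.orbit G ((x i, fun j => (y j : Y j)) : X i × (∀ j, Y j)) =>
            (z : X i × (∀ j, Y j))) -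
          mean (f i) (fun z : MulAction.orbit G (x i) => (z : X i)) *
            ∏ j, ∫ y, g j y ∂(μ j : Measure (Y j))|} : ℝ) ≤
      (D : ℝ) ^ (-κ) * Nat.card (∀ j, (p j).pts) := by
  classical
  choose δW hδW CW hCW using hW
  choose δc hδc Cc hCc using hc
  choose Cd hCd using fun j => (h𝔓 j).degree
  obtain ⟨δ, hδ, hδj⟩ := exists_delta (fun j => min (δW j) (δc j)) fun j => lt_min (hδW j) (hδc j)
  have hδ1 : ∀ j, δ ≤ δW j := fun j => (hδj j).trans (min_le_left _ _)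
  have hδ2 : ∀ j, δ ≤ δc j := fun j => (hδj j).trans (min_le_right _ _)
  set K : ℝ := ((∏ k, Cd k : ℕ) : ℝ) with hK
  have hK0 : 0 ≤ K := Nat.cast_nonneg _
  set C : ℝ := ∑ j, |CW j| with hC
  set C' : ℝ := ∑ j, |Cc j| with hC'
  have hC0 : 0 ≤ C := Finset.sum_nonneg fun j _ => abs_nonneg _
  have hC'0 : 0 ≤ C' := Finset.sum_nonneg fun j _ => abs_nonneg _
  choose D₁ hD₁ using fun j => (h𝔓 j).image (δ / 2) (half_pos hδ)
  obtain ⟨D₂, hD₂⟩ := ev_small (4 * (K * C)) (δ / 4) (by positivity)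
  obtain ⟨D₃, hD₃⟩ := ev_small (2 * (t * C')) (δ / 2) (by positivity)
  set κ : ℝ := δ / 16 with hκ
  have hκ0 : 0 < κ := by rw [hκ]; positivity
  refine ⟨κ, hκ0, max 1 (max (∑ j, D₁ j) (max D₂ D₃)), ?_⟩
  intro D hD p hp hdisc J _ X _ x hx f hf hJ
  have hd1 : 1 ≤ D := (le_max_left _ _).trans hD
  have hd2 : ∑ j, D₁ j ≤ D := (le_max_left _ _).trans ((le_max_right _ _).trans hD)
  have hd3 : D₂ ≤ D :=
    (le_max_left _ _).trans ((le_max_right _ _).trans ((le_max_right _ _).trans hD))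
  have hd4 : D₃ ≤ D :=
    (le_max_right _ _).trans ((le_max_right _ _).trans ((le_max_right _ _).trans hD))
  have hpos : (0 : ℝ) < D := by exact_mod_cast hd1
  have h1D : (1 : ℝ) ≤ D := by exact_mod_cast hd1
  have hT : Fintype (Tup p) := Fintype.ofFinite _
  have hT0 : (0 : ℝ) ≤ Fintype.card (Tup p) := Nat.cast_nonneg _
  -- the bound for the Weyl sums
  have hterm : ∀ j, ((rj p j).range.index : ℝ) * (|CW j| * ((p j).disc : ℝ) ^ (-δW j)) ≤
      K * |CW j| * (D : ℝ) ^ (-(δ / 2)) := by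
    intro j
    have hdj : (1 : ℝ) ≤ (p j).disc := h1D.trans (by exact_mod_cast hdisc j)
    have hdj0 : (0 : ℝ) < (p j).disc := by linarith
    have hdD : (D : ℝ) ≤ (p j).disc := by exact_mod_cast hdisc j
    have hD₁j : D₁ j ≤ (p j).disc :=
      (Finset.single_le_sum (f := D₁) (fun _ _ => Nat.zero_le _) (Finset.mem_univ j)).trans
        (hd2.trans (hdisc j))
    have h4 : ((rj p j).range.index : ℝ) ≤ ((p j).disc : ℝ) ^ (δ / 2) * K := by
      have h5 : ((rj p j).range.index : ℝ) ≤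
          ((p j).rho.range.index : ℝ) * ((∏ k, (p k).E.index : ℕ) : ℝ) := by
        exact_mod_cast rj_index p j
      refine h5.trans ?_
      apply mul_le_mul (hD₁ j (p j) (hp j) hD₁j) _ (Nat.cast_nonneg _)
        (Real.rpow_nonneg hdj0.le _)
      rw [hK]
      exact_mod_cast Finset.prod_le_prod' fun k _ => hCd k (p k) (hp k)
    have h5 : ((p j).disc : ℝ) ^ (-δW j) ≤ ((p j).disc : ℝ) ^ (-δ) :=
      Real.rpow_le_rpow_of_exponent_le hdj (by linarith [hδ1 j])
    have h6 : ((p j).disc : ℝ) ^ (-(δ / 2)) ≤ (D : ℝ) ^ (-(δ / 2)) :=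
      Real.rpow_le_rpow_of_nonpos hpos hdD (by linarith)
    calc ((rj p j).range.index : ℝ) * (|CW j| * ((p j).disc : ℝ) ^ (-δW j))
        ≤ (((p j).disc : ℝ) ^ (δ / 2) * K) * (|CW j| * ((p j).disc : ℝ) ^ (-δ)) := by
          apply mul_le_mul h4 (mul_le_mul_of_nonneg_left h5 (abs_nonneg _))
            (mul_nonneg (abs_nonneg _) (Real.rpow_nonneg hdj0.le _))
            (mul_nonneg (Real.rpow_nonneg hdj0.le _) hK0)
      _ = (((p j).disc : ℝ) ^ (δ / 2) * ((p j).disc : ℝ) ^ (-δ)) * (K * |CW j|) := by ring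
      _ = ((p j).disc : ℝ) ^ (-(δ / 2)) * (K * |CW j|) := by
          rw [← Real.rpow_add hdj0]
          congr 2
          ring
      _ ≤ (D : ℝ) ^ (-(δ / 2)) * (K * |CW j|) :=
          mul_le_mul_of_nonneg_right h6 (mul_nonneg hK0 (abs_nonneg _))
      _ = _ := by ring
  have hB : ∑ j, ((rj p j).range.index : ℝ) * (|CW j| * ((p j).disc : ℝ) ^ (-δW j)) ≤
      K * C * (D : ℝ) ^ (-(δ / 2)) := by
    refine (Finset.sum_le_sum fun j _ => hterm j).trans (le_of_eq ?_)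
    rw [← Finset.sum_mul, ← Finset.mul_sum]
  -- the products of the integrals
  have hint : ∀ j, |∫ y, g j y ∂(μ j : Measure (Y j))| ≤ 1 := by
    intro j
    have h1 := norm_integral_le_of_norm_le_const (μ := (μ j : Measure (Y j))) (f := g j) (C := 1)
      (Filter.Eventually.of_forall fun y => by rw [Real.norm_eq_abs]; exact hg j y)
    rw [Real.norm_eq_abs] at h1
    simpa using h1
  set τ : ℝ := (D : ℝ) ^ (-κ) with hτ
  have hτ0 : 0 < τ := Real.rpow_pos_of_pos hpos _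
  have hprod : |∏ j, mj p g j - ∏ j, ∫ y, g j y ∂(μ j : Measure (Y j))| ≤ τ / 2 := by
    have h1 := prod_near (fun j => mj p g j) (fun j => ∫ y, g j y ∂(μ j : Measure (Y j)))
      (fun j => mean_le_one _ (hg j) _) hint (ε := C' * (D : ℝ) ^ (-δ)) (fun j => by
        have hdj : (1 : ℝ) ≤ (p j).disc := h1D.trans (by exact_mod_cast hdisc j)
        have hdD : (D : ℝ) ≤ (p j).disc := by exact_mod_cast hdisc j
        have h2 : ((p j).disc : ℝ) ^ (-δc j) ≤ (D : ℝ) ^ (-δ) :=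
          (Real.rpow_le_rpow_of_exponent_le hdj (by linarith [hδ2 j])).trans
            (Real.rpow_le_rpow_of_nonpos hpos hdD (by linarith))
        have h3 : |Cc j| ≤ C' :=
          Finset.single_le_sum (f := fun j => |Cc j|) (fun _ _ => abs_nonneg _)
            (Finset.mem_univ j)
        refine (hCc j (p j) (hp j)).trans ?_
        calc Cc j * ((p j).disc : ℝ) ^ (-δc j)
            ≤ |Cc j| * ((p j).disc : ℝ) ^ (-δc j) :=
              mul_le_mul_of_nonneg_right (le_abs_self _) (Real.rpow_nonneg (by linarith) _)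
          _ ≤ C' * (D : ℝ) ^ (-δ) :=
              mul_le_mul h3 h2 (Real.rpow_nonneg (by linarith) _) hC'0)
    refine h1.trans ?_
    rw [Fintype.card_fin]
    have h2 := hD₃ D hd4
    have h3 : (D : ℝ) ^ (-δ) = (D : ℝ) ^ (-(δ / 2)) * (D : ℝ) ^ (-(δ / 2)) := by
      rw [← Real.rpow_add hpos]
      congr 1
      ring
    have h4 : (D : ℝ) ^ (-(δ / 2)) ≤ τ :=
      Real.rpow_le_rpow_of_exponent_le h1D (by rw [hκ]; linarith)
    have h5 : (0 : ℝ) ≤ (D : ℝ) ^ (-(δ / 2)) := Real.rpow_nonneg hpos.le _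
    calc (t : ℝ) * (C' * (D : ℝ) ^ (-δ))
        = (2 * (t * C') * (D : ℝ) ^ (-(δ / 2))) * (D : ℝ) ^ (-(δ / 2)) / 2 := by
          rw [h3]; ring
      _ ≤ 1 * (D : ℝ) ^ (-(δ / 2)) / 2 := by
          apply div_le_div_of_nonneg_right _ (by norm_num)
          exact mul_le_mul_of_nonneg_right h2 h5
      _ ≤ τ / 2 := by
          rw [one_mul]
          exact div_le_div_of_nonneg_right h4 (by norm_num)
  -- the exceptions for one point
  have hone : ∀ i, (Nat.card {y : Tup p // τ <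
      |mean (fun z : X i × (∀ j, Y j) => f i z.1 * ∏ j, g j (z.2 j))
          (fun z : MulAction.orbit G ((x i, pt p y) : X i × (∀ j, Y j)) =>
            (z : X i × (∀ j, Y j))) -
        mean (f i) (fun z : MulAction.orbit G (x i) => (z : X i)) *
            ∏ j, ∫ y, g j y ∂(μ j : Measure (Y j))|} : ℝ) * (τ / 2) ^ 2 ≤
      (Fintype.card (Tup p) : ℝ) * (K * C * (D : ℝ) ^ (-(δ / 2))) := by
    intro i
    have hcore := core p (x i) (f i) g (hf i) hg (fun j => |CW j| * ((p j).disc : ℝ) ^ (-δW j))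
      (fun j => mul_nonneg (abs_nonneg _) (Real.rpow_nonneg (Nat.cast_nonneg _) _))
      (fun j χ hχ z => (hCW j (p j) (hp j) χ hχ z).trans
        (mul_le_mul_of_nonneg_right (le_abs_self _) (Real.rpow_nonneg (Nat.cast_nonneg _) _)))
      (hx i)
    set Mn : Tup p → ℝ := fun y => mean (fun z : X i × (∀ j, Y j) => f i z.1 * ∏ j, g j (z.2 j))
      (fun z : MulAction.orbit G ((x i, pt p y) : X i × (∀ j, Y j)) =>
        (z : X i × (∀ j, Y j))) with hMn
    set M0 : ℝ := mean (f i) (fun z : MulAction.orbit G (x i) => (z : X i)) with hM0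
    have hM01 : |M0| ≤ 1 := mean_le_one _ (hf i) _
    have hsub : ∀ y : Tup p, τ < |Mn y - M0 * ∏ j, ∫ y, g j y ∂(μ j : Measure (Y j))| →
        (τ / 2) ^ 2 ≤ (Mn y - M0 * ∏ j, mj p g j) ^ 2 := by
      intro y hy
      have h1 : |M0 * ∏ j, mj p g j - M0 * ∏ j, ∫ y, g j y ∂(μ j : Measure (Y j))| ≤ τ / 2 := by
        rw [← mul_sub, abs_mul]
        calc |M0| * |∏ j, mj p g j - ∏ j, ∫ y, g j y ∂(μ j : Measure (Y j))| ≤ 1 * (τ / 2) :=
              mul_le_mul hM01 hprod (abs_nonneg _) zero_le_one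
          _ = _ := one_mul _
      have h2 : |Mn y - M0 * ∏ j, ∫ y, g j y ∂(μ j : Measure (Y j))| ≤
          |Mn y - M0 * ∏ j, mj p g j| +
            |M0 * ∏ j, mj p g j - M0 * ∏ j, ∫ y, g j y ∂(μ j : Measure (Y j))| := by
        have : Mn y - M0 * ∏ j, ∫ y, g j y ∂(μ j : Measure (Y j)) =
            (Mn y - M0 * ∏ j, mj p g j) +
            (M0 * ∏ j, mj p g j - M0 * ∏ j, ∫ y, g j y ∂(μ j : Measure (Y j))) := by ring
        rw [this]
        exact abs_add_le _ _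
      have h3 : τ / 2 ≤ |Mn y - M0 * ∏ j, mj p g j| := by linarith
      rw [← sq_abs (Mn y - M0 * ∏ j, mj p g j)]
      exact pow_le_pow_left₀ (by positivity) h3 2
    have hcount : (Nat.card {y : Tup p //
        τ < |Mn y - M0 * ∏ j, ∫ y, g j y ∂(μ j : Measure (Y j))|} : ℝ) * (τ / 2) ^ 2 ≤
        ∑ y : Tup p, (Mn y - M0 * ∏ j, mj p g j) ^ 2 := by
      rw [Nat.card_eq_fintype_card, Fintype.card_subtype]
      rw [← nsmul_eq_mul, ← Finset.sum_const]
      refine le_trans ?_ (Finset.sum_le_sum_of_subset_of_nonneg (Finset.filter_subset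
        (fun y : Tup p => τ < |Mn y - M0 * ∏ j, ∫ y, g j y ∂(μ j : Measure (Y j))|) Finset.univ)
        (fun y _ _ => sq_nonneg _))
      apply Finset.sum_le_sum
      intro y hy
      exact hsub y (Finset.mem_filter.1 hy).2
    exact hcount.trans (hcore.trans (mul_le_mul_of_nonneg_left hB hT0))
  -- all points
  have hJf : Fintype J := Fintype.ofFinite _
  have hunion : (Nat.card {y : Tup p // ∃ i, τ <
      |mean (fun z : X i × (∀ j, Y j) => f i z.1 * ∏ j, g j (z.2 j))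
          (fun z : MulAction.orbit G ((x i, pt p y) : X i × (∀ j, Y j)) =>
            (z : X i × (∀ j, Y j))) -
        mean (f i) (fun z : MulAction.orbit G (x i) => (z : X i)) *
            ∏ j, ∫ y, g j y ∂(μ j : Measure (Y j))|} : ℝ) ≤
      ∑ i, (Nat.card {y : Tup p // τ <
      |mean (fun z : X i × (∀ j, Y j) => f i z.1 * ∏ j, g j (z.2 j))
          (fun z : MulAction.orbit G ((x i, pt p y) : X i × (∀ j, Y j)) =>
            (z : X i × (∀ j, Y j))) -
        mean (f i) (fun z : MulAction.orbit G (x i) => (z : X i)) *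
            ∏ j, ∫ y, g j y ∂(μ j : Measure (Y j))|} : ℝ) := by
    simp only [Nat.card_eq_fintype_card, Fintype.card_subtype]
    rw [← Nat.cast_sum]
    apply Nat.cast_le.2
    refine le_trans (Finset.card_le_card ?_) Finset.card_biUnion_le
    intro y hy
    obtain ⟨i, hi⟩ := (Finset.mem_filter.1 hy).2
    exact Finset.mem_biUnion.2 ⟨i, Finset.mem_univ i, Finset.mem_filter.2 ⟨Finset.mem_univ y, hi⟩⟩
  have hτ2 : 0 < (τ / 2) ^ 2 := by positivity
  have hfinal : (∑ i, (Nat.card {y : Tup p // τ <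
      |mean (fun z : X i × (∀ j, Y j) => f i z.1 * ∏ j, g j (z.2 j))
          (fun z : MulAction.orbit G ((x i, pt p y) : X i × (∀ j, Y j)) =>
            (z : X i × (∀ j, Y j))) -
        mean (f i) (fun z : MulAction.orbit G (x i) => (z : X i)) *
            ∏ j, ∫ y, g j y ∂(μ j : Measure (Y j))|} : ℝ)) * (τ / 2) ^ 2 ≤
      (τ * Fintype.card (Tup p)) * (τ / 2) ^ 2 := by
    rw [Finset.sum_mul]
    refine (Finset.sum_le_sum fun i _ => hone i).trans ?_
    rw [Finset.sum_const, Finset.card_univ, nsmul_eq_mul]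
    rw [Nat.card_eq_fintype_card] at hJ
    have h1 := hD₂ D hd3
    have h2 : 0 ≤ (Fintype.card (Tup p) : ℝ) * (K * C * (D : ℝ) ^ (-(δ / 2))) :=
      mul_nonneg hT0 (mul_nonneg (mul_nonneg hK0 hC0) (Real.rpow_nonneg hpos.le _))
    have h3 : (D : ℝ) ^ κ * (D : ℝ) ^ (-(δ / 2)) = (D : ℝ) ^ (-(δ / 4)) * (τ * τ ^ 2) := by
      have e1 : τ * τ ^ 2 = (D : ℝ) ^ (-κ + (-κ + -κ)) := by
        rw [Real.rpow_add hpos, Real.rpow_add hpos]
        ring
      rw [e1, ← Real.rpow_add hpos, ← Real.rpow_add hpos]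
      congr 1
      rw [hκ]
      ring
    calc (Fintype.card J : ℝ) * ((Fintype.card (Tup p) : ℝ) * (K * C * (D : ℝ) ^ (-(δ / 2))))
        ≤ (D : ℝ) ^ κ * ((Fintype.card (Tup p) : ℝ) * (K * C * (D : ℝ) ^ (-(δ / 2)))) :=
          mul_le_mul_of_nonneg_right hJ h2
      _ = (Fintype.card (Tup p) : ℝ) * (K * C) * ((D : ℝ) ^ κ * (D : ℝ) ^ (-(δ / 2))) := by ring
      _ = (4 * (K * C) * (D : ℝ) ^ (-(δ / 4))) * ((Fintype.card (Tup p) : ℝ) * (τ * τ ^ 2) / 4) := by
          rw [h3]; ring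
      _ ≤ 1 * ((Fintype.card (Tup p) : ℝ) * (τ * τ ^ 2) / 4) :=
          mul_le_mul_of_nonneg_right h1 (by positivity)
      _ = _ := by ring
  have h10 : Nat.card (∀ j, (p j).pts) = Fintype.card (Tup p) := by
    rw [← Nat.card_eq_fintype_card]
    rfl
  rw [h10]
  exact hunion.trans (le_of_mul_le_mul_right hfinal hτ2)

end Pool.Agent.P8H27.DC
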